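import Pool.Agent.P8H82.JG.Stm

/-!
# EQ: lattice points in a coset of `m ℤ ^ d`, real scaling
-/

set_option autoImplicit false

namespace Pool.Agent.P8H75.JG

open MeasureTheory Filter Topology Metric
open Pool.Agent.P8H82.JG (Jor S_EQ)

variable {d : ℕ}

/-- the cube of `z` -/
def cube (m : ℕ) (l : ℝ) (z : Fin d → ℤ) : Set (Fin d → ℝ) :=
  Set.pi Set.univ fun i => Set.Ico ((z i : ℝ) / l) (((z i : ℝ) + m) / l)

lemma vol_cube {m : ℕ} {l : ℝ} (hl : 0 < l) (z : Fin d → ℤ) :
    volume (cube m l z) = ENNReal.ofReal (((m : ℝ) / l) ^ d) := by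
  unfold cube
  rw [Real.volume_pi_Ico]
  have h : ∀ i : Fin d, ((z i : ℝ) + m) / l - (z i : ℝ) / l = m / l := by
    intro i
    rw [add_div]
    ring
  simp only [h, Finset.prod_const, Finset.card_univ, Fintype.card_fin]
  rw [ENNReal.ofReal_pow (by positivity)]

lemma meas_cube (m : ℕ) (l : ℝ) (z : Fin d → ℤ) : MeasurableSet (cube m l z) :=
  MeasurableSet.univ_pi fun _ => measurableSet_Ico

/-- the point `z / l` is near to the points of the cube -/
lemma dist_cube {m : ℕ} {l : ℝ} (hl : 0 < l) {z : Fin d → ℤ} {x : Fin d → ℝ}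
    (hx : x ∈ cube m l z) : dist x (fun i => (z i : ℝ) / l) ≤ m / l := by
  rw [dist_pi_le_iff (by positivity)]
  intro i
  have h := hx i (Set.mem_univ i)
  have h1 : ((z i : ℝ) + m) / l = (z i : ℝ) / l + m / l := add_div _ _ _
  rw [Set.mem_Ico, h1] at h
  rw [Real.dist_eq, abs_le]
  have : 0 ≤ (m : ℝ) / l := by positivity
  constructor <;> linarith [h.1, h.2]

/-- the cubes of a coset are disjoint -/
lemma cube_inj {m : ℕ} (hm : 0 < m) {l : ℝ} (hl : 0 < l) {v z z' : Fin d → ℤ}
    (hz : ∃ y : Fin d → ℤ, ∀ i, z i = v i + m * y i)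
    (hz' : ∃ y : Fin d → ℤ, ∀ i, z' i = v i + m * y i) {x : Fin d → ℝ} (hx : x ∈ cube m l z)
    (hx' : x ∈ cube m l z') : z = z' := by
  obtain ⟨y, hy⟩ := hz
  obtain ⟨y', hy'⟩ := hz'
  funext i
  have h := hx i (Set.mem_univ i)
  have h' := hx' i (Set.mem_univ i)
  rw [Set.mem_Ico, div_le_iff₀ hl, lt_div_iff₀ hl] at h h'
  have h1 : (z i : ℝ) < z' i + m := by linarith [h.1, h'.2]
  have h2 : (z' i : ℝ) < z i + m := by linarith [h'.1, h.2]
  have h3 : z i < z' i + m := by exact_mod_cast h1
  have h4 : z' i < z i + m := by exact_mod_cast h2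
  rw [hy i, hy' i] at h3 h4
  have hm' : (0 : ℤ) < m := by exact_mod_cast hm
  have h5 : y i < y' i + 1 := by
    by_contra hc
    push Not at hc
    nlinarith
  have h6 : y' i < y i + 1 := by
    by_contra hc
    push Not at hc
    nlinarith
  have h7 : y i = y' i := by omega
  rw [hy i, hy' i, h7]

/-- the cubes of a coset cover -/
lemma exists_cube {m : ℕ} (hm : 0 < m) {l : ℝ} (hl : 0 < l) (v : Fin d → ℤ) (x : Fin d → ℝ) :
    ∃ z : Fin d → ℤ, (∃ y : Fin d → ℤ, ∀ i, z i = v i + m * y i) ∧ x ∈ cube m l z := by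
  have hm' : (0 : ℝ) < m := by exact_mod_cast hm
  refine ⟨fun i => v i + m * ⌊(l * x i - v i) / m⌋, ⟨fun i => ⌊(l * x i - v i) / m⌋, fun i => rfl⟩,
    fun i _ => ?_⟩
  have h1 := Int.floor_le ((l * x i - v i) / m)
  have h2 := Int.lt_floor_add_one ((l * x i - v i) / m)
  rw [le_div_iff₀ hm'] at h1
  rw [div_lt_iff₀ hm'] at h2
  rw [Set.mem_Ico, div_le_iff₀ hl, lt_div_iff₀ hl]
  push_cast
  constructor <;> nlinarith

/-- a point of `D` and a point outside are separated by the frontier -/
lemma mem_thick {D : Set (Fin d → ℝ)} {x p : Fin d → ℝ} {r : ℝ} (hx : x ∈ D) (hp : p ∉ D)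
    (h : dist x p ≤ r) : x ∈ cthickening r (frontier D) ∧ p ∈ cthickening r (frontier D) := by
  have h1 : D ≠ Set.univ := by
    intro h2
    rw [h2] at hp
    exact hp (Set.mem_univ p)
  have h1' : Dᶜ ≠ Set.univ := by
    intro h2
    have : x ∈ Dᶜ := by
      rw [h2]
      exact Set.mem_univ x
    exact this hx
  obtain ⟨y, hy, hxy⟩ := exists_mem_frontier_infDist_compl_eq_dist hx h1
  obtain ⟨y', hy', hxy'⟩ := exists_mem_frontier_infDist_compl_eq_dist (s := Dᶜ) (x := p) hp h1'
  rw [frontier_compl] at hy'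
  rw [compl_compl] at hxy'
  refine ⟨mem_cthickening_of_dist_le x y r _ hy ?_, mem_cthickening_of_dist_le p y' r _ hy' ?_⟩
  · rw [← hxy]
    exact (infDist_le_dist_of_mem (s := Dᶜ) hp).trans h
  · rw [← hxy']
    refine (infDist_le_dist_of_mem hx).trans ?_
    rw [dist_comm]
    exact h

/-- EQ -/
theorem eq_cosets : S_EQ := by
  intro d D hD m hm v
  obtain ⟨hb, hms, hf⟩ := hD
  have hm' : (0 : ℝ) < m := by exact_mod_cast hm
  have hbf : Bornology.IsBounded (frontier D) := hb.closure.subset frontier_subset_closure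
  have hcf : IsCompact (frontier D) := isCompact_of_isClosed_isBounded isClosed_frontier hbf
  set S : ℝ → Set (Fin d → ℤ) := fun l => {z : Fin d → ℤ |
    (∃ y : Fin d → ℤ, ∀ i, z i = v i + m * y i) ∧ (fun i => (z i : ℝ) / l) ∈ D} with hS
  -- finiteness
  have hfin : ∀ l : ℝ, 0 < l → (S l).Finite := by
    intro l hl
    obtain ⟨R, hR⟩ := hb.subset_closedBall 0
    have h1 : S l ⊆ Set.pi Set.univ fun _ : Fin d => Set.Icc (-⌈R * l⌉) ⌈R * l⌉ := by
      intro z hz i _
      have h2 := hR hz.2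
      rw [mem_closedBall, dist_zero_right] at h2
      have h3 := (norm_le_pi_norm (fun i => (z i : ℝ) / l) i).trans h2
      rw [Real.norm_eq_abs, abs_div, abs_of_pos hl, div_le_iff₀ hl] at h3
      have h4 := h3.trans (Int.le_ceil (R * l))
      have h5 : |z i| ≤ ⌈R * l⌉ := by exact_mod_cast h4
      exact abs_le.1 h5
    exact (Set.Finite.pi' fun _ => Set.finite_Icc _ _).subset (fun z hz i => h1 hz i (Set.mem_univ i))
  -- the main inequality
  have key : ∀ l : ℝ, 0 < l →
      |((S l).ncard : ℝ) / l ^ d - (volume D).toReal / (m : ℝ) ^ d| ≤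
        (volume (cthickening (m / l) (frontier D))).toReal / (m : ℝ) ^ d := by
    intro l hl
    set U : Set (Fin d → ℝ) := ⋃ z ∈ (hfin l hl).toFinset, cube m l z with hU
    set T : Set (Fin d → ℝ) := cthickening (m / l) (frontier D) with hT
    have hvU : volume U = ENNReal.ofReal ((S l).ncard * ((m : ℝ) / l) ^ d) := by
      rw [hU, measure_biUnion_finset _ (fun z _ => meas_cube m l z)]
      · rw [Finset.sum_congr rfl (fun z _ => vol_cube hl z), Finset.sum_const, nsmul_eq_mul,
          ENNReal.ofReal_mul (by positivity), ENNReal.ofReal_natCast,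
          Set.ncard_eq_toFinset_card _ (hfin l hl)]
      · intro z hz z' hz' hne
        refine Set.disjoint_left.2 fun x hx hx' => hne ?_
        have e1 : z ∈ S l := (hfin l hl).mem_toFinset.1 hz
        have e2 : z' ∈ S l := (hfin l hl).mem_toFinset.1 hz'
        exact cube_inj hm hl e1.1 e2.1 hx hx'
    have hT1 : volume T ≠ ⊤ := hbf.cthickening.measure_lt_top.ne
    have hD1 : volume D ≠ ⊤ := hb.measure_lt_top.ne
    have hU1 : volume U ≠ ⊤ := by
      rw [hvU]
      exact ENNReal.ofReal_ne_top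
    have s1 : U ⊆ D ∪ T := by
      intro x hx
      by_cases hxD : x ∈ D
      · exact Or.inl hxD
      · right
        rw [hU, Set.mem_iUnion₂] at hx
        obtain ⟨z, hz, hx⟩ := hx
        have e1 : z ∈ S l := (hfin l hl).mem_toFinset.1 hz
        have h3 := dist_cube hl hx
        rw [dist_comm] at h3
        exact (mem_thick e1.2 hxD h3).2
    have s2 : D ⊆ U ∪ T := by
      intro x hx
      obtain ⟨z, hz, hxz⟩ := exists_cube hm hl v x
      by_cases hzD : (fun i => (z i : ℝ) / l) ∈ D
      · left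
        rw [hU, Set.mem_iUnion₂]
        exact ⟨z, (hfin l hl).mem_toFinset.2 ⟨hz, hzD⟩, hxz⟩
      · right
        exact (mem_thick hx hzD (dist_cube hl hxz)).1
    have i1 : (volume U).toReal ≤ (volume D).toReal + (volume T).toReal := by
      rw [← ENNReal.toReal_add hD1 hT1]
      exact ENNReal.toReal_mono (ENNReal.add_ne_top.2 ⟨hD1, hT1⟩)
        ((measure_mono s1).trans (measure_union_le _ _))
    have i2 : (volume D).toReal ≤ (volume U).toReal + (volume T).toReal := by
      rw [← ENNReal.toReal_add hU1 hT1]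
      exact ENNReal.toReal_mono (ENNReal.add_ne_top.2 ⟨hU1, hT1⟩)
        ((measure_mono s2).trans (measure_union_le _ _))
    have i3 : ((S l).ncard : ℝ) / l ^ d = (volume U).toReal / (m : ℝ) ^ d := by
      rw [hvU, ENNReal.toReal_ofReal (by positivity), div_pow]
      field_simp
    rw [i3, ← sub_div, abs_div, abs_of_pos (pow_pos hm' d)]
    apply div_le_div_of_nonneg_right _ (pow_pos hm' d).le
    rw [abs_le]
    constructor <;> linarith
  -- the limit
  have hlim : Tendsto (fun l : ℝ =>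
      (volume (cthickening ((m : ℝ) / l) (frontier D))).toReal / (m : ℝ) ^ d) atTop (𝓝 0) := by
    have h1 : Tendsto (fun l : ℝ => (m : ℝ) / l) atTop (𝓝 0) :=
      tendsto_const_nhds.div_atTop tendsto_id
    have h2 := (tendsto_measure_cthickening_of_isCompact (μ := volume) hcf).comp h1
    rw [hf] at h2
    have h3 := (ENNReal.tendsto_toReal ENNReal.zero_ne_top).comp h2
    have h4 := h3.div_const ((m : ℝ) ^ d)
    simpa using h4
  rw [tendsto_iff_norm_sub_tendsto_zero]
  refine squeeze_zero' (Eventually.of_forall fun l => norm_nonneg _) ?_ hlim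
  filter_upwards [eventually_gt_atTop 0] with l hl
  exact key l hl

end Pool.Agent.P8H75.JG
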