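import Pool.Agent.P8H82.JG.Stm

/-!
# REG: the region is Jordan measurable
-/

set_option autoImplicit false

namespace Pool.Agent.P8H75.JG

open MeasureTheory Filter Topology Metric Set
open Pool.Agent.P8H82.JG (Jor S_REG Reg KK)

/-- null sets by slices in the last coordinate -/
lemma null_slice {s : Set (ℝ × ℝ × ℝ × ℝ)} (hs : MeasurableSet s)
    (h : ∀ a b : ℝ, ∀ᵐ c : ℝ, volume {t : ℝ | (a, b, c, t) ∈ s} = 0) : volume s = 0 := by
  rw [Measure.volume_eq_prod, Measure.measure_prod_null hs]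
  refine Eventually.of_forall fun a => ?_
  show volume (Prod.mk a ⁻¹' s) = 0
  have hs1 : MeasurableSet (Prod.mk a ⁻¹' s) := measurable_prodMk_left hs
  rw [Measure.volume_eq_prod, Measure.measure_prod_null hs1]
  refine Eventually.of_forall fun b => ?_
  show volume (Prod.mk b ⁻¹' (Prod.mk a ⁻¹' s)) = 0
  have hs2 : MeasurableSet (Prod.mk b ⁻¹' (Prod.mk a ⁻¹' s)) := measurable_prodMk_left hs1
  rw [Measure.volume_eq_prod, Measure.measure_prod_null hs2]
  filter_upwards [h a b] with c hc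
  exact hc

/-- the order of the coordinates -/
noncomputable def GG : (ℝ × ℝ) × (ℝ × ℝ) ≃ᵐ ℝ × ℝ × ℝ × ℝ :=
  MeasurableEquiv.prodComm.trans MeasurableEquiv.prodAssoc

lemma GG_apply (b a : ℝ × ℝ) : GG (b, a) = (a.1, a.2, b.1, b.2) := rfl

lemma GG_mp : MeasurePreserving GG := by
  have h1 : MeasurePreserving (MeasurableEquiv.prodAssoc : (ℝ × ℝ) × (ℝ × ℝ) ≃ᵐ ℝ × ℝ × ℝ × ℝ)
      volume volume := measurePreserving_prodAssoc volume volume volume
  have h2 : MeasurePreserving (MeasurableEquiv.prodComm : (ℝ × ℝ) × (ℝ × ℝ) ≃ᵐ (ℝ × ℝ) × (ℝ × ℝ))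
      volume volume := Measure.measurePreserving_swap
  exact h1.comp h2

/-- the volume by slices in the first two coordinates -/
lemma vol_slice {s : Set (ℝ × ℝ × ℝ × ℝ)} (hs : MeasurableSet s) :
    volume s = ∫⁻ b : ℝ × ℝ, volume {a : ℝ × ℝ | (a.1, a.2, b.1, b.2) ∈ s} := by
  rw [← GG_mp.measure_preimage hs.nullMeasurableSet, Measure.volume_eq_prod,
    Measure.prod_apply (GG.measurable hs)]
  rfl

/-- the linear map of a pair of nonzero factors -/
lemma null_lin {N : Set (ℝ × ℝ)} (h0 : volume N = 0) {u v : ℝ} (hu : u ≠ 0) (hv : v ≠ 0) :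
    volume {a : ℝ × ℝ | (a.1 / u, a.2 / v) ∈ N} = 0 := by
  let e : (ℝ × ℝ) ≃L[ℝ] (ℝ × ℝ) :=
    (ContinuousLinearEquiv.unitsEquivAut ℝ (Units.mk0 u⁻¹ (inv_ne_zero hu))).prodCongr
      (ContinuousLinearEquiv.unitsEquivAut ℝ (Units.mk0 v⁻¹ (inv_ne_zero hv)))
  have h1 : {a : ℝ × ℝ | (a.1 / u, a.2 / v) ∈ N} = e ⁻¹' N := by
    ext a
    have : e a = (a.1 / u, a.2 / v) := by
      show (a.1 * u⁻¹, a.2 * v⁻¹) = _
      rw [div_eq_mul_inv, div_eq_mul_inv]
    rw [mem_preimage, this]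
    rfl
  rw [h1, Measure.addHaar_preimage_continuousLinearEquiv, h0, mul_zero]

/-- the preimage of a null set of shapes -/
lemma null_quot {N : Set (ℝ × ℝ)} (hN : MeasurableSet N) (h0 : volume N = 0) :
    volume {p : ℝ × ℝ × ℝ × ℝ | p.2.2.1 ≠ 0 ∧ p.2.2.2 ≠ 0 ∧
      (p.1 / p.2.2.1, p.2.1 / p.2.2.2) ∈ N} = 0 := by
  have hm : MeasurableSet {p : ℝ × ℝ × ℝ × ℝ | p.2.2.1 ≠ 0 ∧ p.2.2.2 ≠ 0 ∧
      (p.1 / p.2.2.1, p.2.1 / p.2.2.2) ∈ N} := by
    have m1 : Measurable fun p : ℝ × ℝ × ℝ × ℝ => p.2.2.1 := by fun_prop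
    have m2 : Measurable fun p : ℝ × ℝ × ℝ × ℝ => p.2.2.2 := by fun_prop
    have m3 : Measurable fun p : ℝ × ℝ × ℝ × ℝ => (p.1 / p.2.2.1, p.2.1 / p.2.2.2) := by fun_prop
    have e1 : MeasurableSet {p : ℝ × ℝ × ℝ × ℝ | p.2.2.1 ≠ 0} :=
      (m1 (measurableSet_singleton 0)).compl
    have e2 : MeasurableSet {p : ℝ × ℝ × ℝ × ℝ | p.2.2.2 ≠ 0} :=
      (m2 (measurableSet_singleton 0)).compl
    exact e1.inter (e2.inter (m3 hN))
  rw [vol_slice hm]
  have : ∀ b : ℝ × ℝ, volume {a : ℝ × ℝ | (a.1, a.2, b.1, b.2) ∈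
      {p : ℝ × ℝ × ℝ × ℝ | p.2.2.1 ≠ 0 ∧ p.2.2.2 ≠ 0 ∧
      (p.1 / p.2.2.1, p.2.1 / p.2.2.2) ∈ N}} = 0 := by
    intro b
    by_cases h1 : b.1 = 0
    · refine measure_mono_null (t := ∅) ?_ measure_empty
      intro a ha
      exact (ha.1 h1).elim
    · by_cases h2 : b.2 = 0
      · refine measure_mono_null (t := ∅) ?_ measure_empty
        intro a ha
        exact (ha.2.1 h2).elim
      · refine measure_mono_null ?_ (null_lin h0 h1 h2)
        intro a ha
        exact ha.2.2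
  simp only [this, lintegral_zero]

lemma ae_ne_zero : ∀ᵐ c : ℝ, c ≠ 0 := by
  rw [ae_iff]
  have : {a : ℝ | ¬ a ≠ 0} = {0} := by
    ext a
    simp
  rw [this]
  exact Real.volume_singleton

/-- the roots of `|t (a + t)| = k` -/
lemma fin_roots (a k : ℝ) : {t : ℝ | |t * (a + t)| = k}.Finite := by
  have h1 : ∀ k' : ℝ, {t : ℝ | t * (a + t) = k'}.Finite := by
    intro k'
    rcases Set.eq_empty_or_nonempty {t : ℝ | t * (a + t) = k'} with h | ⟨t0, ht0⟩
    · rw [h]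
      exact Set.finite_empty
    · refine (Set.toFinite ({t0, -a - t0} : Set ℝ)).subset ?_
      intro t ht
      have ht0' : t0 * (a + t0) = k' := ht0
      have ht' : t * (a + t) = k' := ht
      have h2 : (t - t0) * (t - (-a - t0)) = 0 := by linear_combination ht' - ht0'
      rcases mul_eq_zero.1 h2 with h3 | h3
      · left
        linarith
      · right
        show t = -a - t0
        linarith
  refine ((h1 k).union (h1 (-k))).subset ?_
  intro t ht
  have ht' : |t * (a + t)| = k := ht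
  rcases abs_choice (t * (a + t)) with h | h
  · left
    show t * (a + t) = k
    rw [← ht', h]
  · right
    show t * (a + t) = -k
    rw [← ht', h, neg_neg]

/-- the constant `φ ^ 2` -/
noncomputable def cc : ℝ := (3 + √5) / 2

lemma cc_pos : 0 < cc := by
  unfold cc
  positivity

lemma cc_lt : cc < 3 := by
  unfold cc
  have : √5 < 3 := by
    rw [Real.sqrt_lt' (by norm_num)]
    norm_num
  linarith

/-- the norm form -/
noncomputable def FF (p : ℝ × ℝ × ℝ × ℝ) : ℝ :=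
  |p.1 * p.2.2.1 * (p.1 + p.2.2.1)| * |p.2.1 * p.2.2.2 * (p.2.1 + p.2.2.2)|

lemma FF_cont : Continuous FF := by
  unfold FF
  fun_prop

lemma Reg_eq (Q : Set (ℝ × ℝ)) : Reg Q = {p | p.2.2.2 ≠ 0} ∩ ({p | |p.2.2.2| ≤ |p.2.2.1|} ∩
    ({p | |p.2.2.1| < cc * |p.2.2.2|} ∩ ({p | (p.1 / p.2.2.1, p.2.1 / p.2.2.2) ∈ Q} ∩
      {p | FF p ≤ 1}))) := by
  rfl

lemma Reg_meas {Q : Set (ℝ × ℝ)} (hQ : MeasurableSet Q) : MeasurableSet (Reg Q) := by
  rw [Reg_eq]
  have m2 : Measurable fun p : ℝ × ℝ × ℝ × ℝ => p.2.2.2 := by fun_prop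
  have m3 : Measurable fun p : ℝ × ℝ × ℝ × ℝ => (p.1 / p.2.2.1, p.2.1 / p.2.2.2) := by fun_prop
  have e1 : MeasurableSet {p : ℝ × ℝ × ℝ × ℝ | p.2.2.2 ≠ 0} :=
    (m2 (measurableSet_singleton 0)).compl
  have e2 : MeasurableSet {p : ℝ × ℝ × ℝ × ℝ | |p.2.2.2| ≤ |p.2.2.1|} :=
    measurableSet_le (by fun_prop) (by fun_prop)
  have e3 : MeasurableSet {p : ℝ × ℝ × ℝ × ℝ | |p.2.2.1| < cc * |p.2.2.2|} :=
    measurableSet_lt (by fun_prop) (by fun_prop)
  have e5 : MeasurableSet {p : ℝ × ℝ × ℝ × ℝ | FF p ≤ 1} :=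
    measurableSet_le FF_cont.measurable measurable_const
  exact e1.inter (e2.inter (e3.inter ((m3 hQ).inter e5)))

lemma Reg_bdd {R : ℝ} {Q : Set (ℝ × ℝ)} (hR : 1 ≤ R) (hQ : Q ⊆ KK R ×ˢ KK R) :
    Bornology.IsBounded (Reg Q) := by
  have hR0 : 0 < R := by linarith
  have hcc := cc_lt
  have hcp := cc_pos
  -- each coordinate is bounded by 3 R ^ 2
  refine (isBounded_closedBall (x := (0 : ℝ × ℝ × ℝ × ℝ)) (r := 3 * R ^ 2)).subset ?_
  rintro ⟨a₁, a₂, b₁, b₂⟩ ⟨h1, h2, h3, h4, h5⟩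
  simp only at h1 h2 h3 h4 h5
  change |b₁| < cc * |b₂| at h3
  obtain ⟨⟨x1, x2, x3⟩, y1, y2, y3⟩ := hQ h4
  simp only at x1 x2 x3 y1 y2 y3
  have hb2 : 0 < |b₂| := abs_pos.2 h1
  have hb1 : 0 < |b₁| := lt_of_lt_of_le hb2 h2
  have hb10 : b₁ ≠ 0 := abs_pos.1 hb1
  -- the numerators
  have n1 : |a₁| < R * |b₁| := by
    rwa [abs_div, div_lt_iff₀ hb1] at x3
  have n2 : |a₂| < R * |b₂| := by
    rwa [abs_div, div_lt_iff₀ hb2] at y3
  have k1 : |b₁| < R * |a₁| := by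
    rw [abs_div, div_lt_div_iff₀ hR0 hb1] at x1
    linarith
  have k2 : |b₂| < R * |a₂| := by
    rw [abs_div, div_lt_div_iff₀ hR0 hb2] at y1
    linarith
  have l1 : |b₁| < R * |a₁ + b₁| := by
    have : a₁ / b₁ + 1 = (a₁ + b₁) / b₁ := by
      field_simp
    rw [this, abs_div, div_lt_div_iff₀ hR0 hb1] at x2
    linarith
  have l2 : |b₂| < R * |a₂ + b₂| := by
    have : a₂ / b₂ + 1 = (a₂ + b₂) / b₂ := by
      field_simp
    rw [this, abs_div, div_lt_div_iff₀ hR0 hb2] at y2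
    linarith
  -- the norm
  have m1 : |b₁| ^ 3 ≤ R ^ 2 * |a₁ * b₁ * (a₁ + b₁)| := by
    rw [abs_mul, abs_mul]
    have := mul_le_mul k1.le l1.le hb1.le (by positivity)
    nlinarith
  have m2 : |b₂| ^ 3 ≤ R ^ 2 * |a₂ * b₂ * (a₂ + b₂)| := by
    rw [abs_mul, abs_mul]
    have := mul_le_mul k2.le l2.le hb2.le (by positivity)
    nlinarith
  have m3 : |b₁| ^ 3 * |b₂| ^ 3 ≤ R ^ 4 := by
    have h6 := mul_le_mul m1 m2 (by positivity) (by positivity)
    have h7 : R ^ 2 * |a₁ * b₁ * (a₁ + b₁)| * (R ^ 2 * |a₂ * b₂ * (a₂ + b₂)|)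
      = R ^ 4 * (|a₁ * b₁ * (a₁ + b₁)| * |a₂ * b₂ * (a₂ + b₂)|) := by ring
    rw [h7] at h6
    have h8 : (0 : ℝ) ≤ R ^ 4 := by positivity
    nlinarith
  have m4 : |b₂| ≤ R := by
    have h6 : |b₂| ^ 6 ≤ R ^ 6 := by
      have h7 : |b₂| ^ 3 ≤ |b₁| ^ 3 := pow_le_pow_left₀ hb2.le h2 3
      have h8 : |b₂| ^ 6 = |b₂| ^ 3 * |b₂| ^ 3 := by ring
      have h9 : |b₂| ^ 3 * |b₂| ^ 3 ≤ |b₁| ^ 3 * |b₂| ^ 3 :=
        mul_le_mul_of_nonneg_right h7 (by positivity)
      have h10 : R ^ 4 ≤ R ^ 6 := pow_le_pow_right₀ hR (by norm_num)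
      linarith
    exact le_of_pow_le_pow_left₀ (by norm_num) hR0.le h6
  have m5 : |b₁| ≤ 3 * R := by nlinarith
  have hRR : R ≤ R ^ 2 := by nlinarith
  have m6 : |a₁| ≤ 3 * R ^ 2 := by nlinarith
  have m7 : |a₂| ≤ 3 * R ^ 2 := by nlinarith
  rw [mem_closedBall, dist_zero_right, norm_prod_le_iff, norm_prod_le_iff, norm_prod_le_iff]
  simp only [Real.norm_eq_abs]
  refine ⟨m6, m7, ?_, ?_⟩ <;> linarith

/-- REG -/
theorem reg : S_REG := by
  intro R Q hR hQ hfQ hsub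
  refine ⟨Reg_bdd hR hsub, Reg_meas hQ, ?_⟩
  have hsubset : frontier (Reg Q) ⊆ {p | p.2.2.2 = 0} ∪ ({p | |p.2.2.2| = |p.2.2.1|} ∪
      ({p | |p.2.2.1| = cc * |p.2.2.2|} ∪ (({p | p.2.2.1 = 0} ∪ {p : ℝ × ℝ × ℝ × ℝ |
        p.2.2.1 ≠ 0 ∧ p.2.2.2 ≠ 0 ∧ (p.1 / p.2.2.1, p.2.1 / p.2.2.2) ∈ frontier Q}) ∪
          {p | FF p = 1}))) := by
    have hi : ∀ s t : Set (ℝ × ℝ × ℝ × ℝ), frontier (s ∩ t) ⊆ frontier s ∪ frontier t := by
      intro s t
      refine (frontier_inter_subset s t).trans ?_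
      exact union_subset_union inter_subset_left inter_subset_right
    rw [Reg_eq]
    intro p hp
    by_cases hp0 : p.2.2.2 = 0
    · exact Or.inl hp0
    right
    rcases hi _ _ hp with hp | hp
    · exfalso
      apply hp0
      have h1 : {p : ℝ × ℝ × ℝ × ℝ | p.2.2.2 ≠ 0} = {p : ℝ × ℝ × ℝ × ℝ | p.2.2.2 = 0}ᶜ := rfl
      have h2 : IsClosed {p : ℝ × ℝ × ℝ × ℝ | p.2.2.2 = 0} :=
        isClosed_eq (by fun_prop) (by fun_prop)
      rw [h1, frontier_compl] at hp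
      exact h2.frontier_subset hp
    rcases hi _ _ hp with hp | hp
    · exact Or.inl (frontier_le_subset_eq (by fun_prop) (by fun_prop) hp)
    right
    rcases hi _ _ hp with hp | hp
    · exact Or.inl (frontier_lt_subset_eq (by fun_prop) (by fun_prop) hp)
    right
    rcases hi _ _ hp with hp | hp
    · left
      by_cases hp1 : p.2.2.1 = 0
      · exact Or.inl hp1
      · right
        refine ⟨hp1, hp0, ?_⟩
        have hc : ContinuousAt (fun p : ℝ × ℝ × ℝ × ℝ => (p.1 / p.2.2.1, p.2.1 / p.2.2.2)) p := by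
          apply ContinuousAt.prodMk
          · exact ContinuousAt.div (by fun_prop) (by fun_prop) hp1
          · exact ContinuousAt.div (by fun_prop) (by fun_prop) hp0
        rw [frontier_eq_closure_inter_closure] at hp ⊢
        constructor
        · exact hc.continuousWithinAt.mem_closure hp.1 (fun q hq => hq)
        · exact hc.continuousWithinAt.mem_closure hp.2 (fun q hq => hq)
    · exact Or.inr (frontier_le_subset_eq FF_cont continuous_const hp)
  refine measure_mono_null hsubset ?_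
  have z1 : volume {p : ℝ × ℝ × ℝ × ℝ | p.2.2.2 = 0} = 0 := by
    apply null_slice (isClosed_eq (by fun_prop) (by fun_prop)).measurableSet
    intro a b
    refine Eventually.of_forall fun c => ?_
    have : {t : ℝ | (a, b, c, t) ∈ {p : ℝ × ℝ × ℝ × ℝ | p.2.2.2 = 0}} = {0} := by
      ext t
      simp
    rw [this]
    exact Real.volume_singleton
  have z2 : volume {p : ℝ × ℝ × ℝ × ℝ | |p.2.2.2| = |p.2.2.1|} = 0 := by
    apply null_slice (isClosed_eq (by fun_prop) (by fun_prop)).measurableSet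
    intro a b
    refine Eventually.of_forall fun c => ?_
    refine Set.Finite.measure_zero ((Set.toFinite ({c, -c} : Set ℝ)).subset ?_) _
    intro t ht
    have ht' : |t| = |c| := ht
    rcases abs_eq_abs.1 ht' with h | h
    · exact Or.inl h
    · exact Or.inr h
  have z3 : volume {p : ℝ × ℝ × ℝ × ℝ | |p.2.2.1| = cc * |p.2.2.2|} = 0 := by
    apply null_slice (isClosed_eq (by fun_prop) (by fun_prop)).measurableSet
    intro a b
    refine Eventually.of_forall fun c => ?_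
    refine Set.Finite.measure_zero ((Set.toFinite ({c / cc, -(c / cc)} : Set ℝ)).subset ?_) _
    intro t ht
    have ht' : |c| = cc * |t| := ht
    have hc := cc_pos
    have h2 : |t| = |c / cc| := by
      rw [abs_div, ht', abs_of_pos hc]
      field_simp
    rcases abs_eq_abs.1 h2 with h | h
    · exact Or.inl h
    · exact Or.inr h
  have z4 : volume {p : ℝ × ℝ × ℝ × ℝ | p.2.2.1 = 0} = 0 := by
    apply null_slice (isClosed_eq (by fun_prop) (by fun_prop)).measurableSet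
    intro a b
    filter_upwards [ae_ne_zero] with c hc
    refine measure_mono_null (t := ∅) ?_ measure_empty
    intro t ht
    exact (hc ht).elim
  have z5 := null_quot (N := frontier Q) isClosed_frontier.measurableSet hfQ
  have z6 : volume {p : ℝ × ℝ × ℝ × ℝ | FF p = 1} = 0 := by
    apply null_slice (isClosed_eq FF_cont continuous_const).measurableSet
    intro a b
    refine Eventually.of_forall fun c => ?_
    refine Set.Finite.measure_zero ((fin_roots b (1 / (|a * c * (a + c)| * |b|))).subset ?_) _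
    intro t ht
    have ht' : |a * c * (a + c)| * |b * t * (b + t)| = 1 := ht
    show |t * (b + t)| = 1 / (|a * c * (a + c)| * |b|)
    have h1 : |b * t * (b + t)| = |b| * |t * (b + t)| := by
      rw [mul_assoc, abs_mul]
    rw [h1, ← mul_assoc] at ht'
    have h2 : |a * c * (a + c)| * |b| ≠ 0 := by
      intro h0
      rw [h0, zero_mul] at ht'
      exact zero_ne_one ht'
    rw [eq_div_iff h2]
    linarith
  simp only [measure_union_null_iff]
  exact ⟨z1, z2, z3, ⟨z4, z5⟩, z6⟩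

end Pool.Agent.P8H75.JG
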