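import Pool.Agent.P8H75.JG.REG

/-!
# VOL: the volume of the region
-/

set_option autoImplicit false

namespace Pool.Agent.P8H75.JG

open MeasureTheory Filter Topology Metric Set
open Pool.Agent.P8H82.JG (Jor S_VOL Reg KK dens)

lemma lint_scale {u : ℝ} (hu : u ≠ 0) {h : ℝ → ENNReal} (hm : Measurable h) :
    ∫⁻ b, h b = ENNReal.ofReal |u| * ∫⁻ y, h (u * y) := by
  have h1 : ∫⁻ y, h (u * y) = ∫⁻ b, h b ∂(Measure.map (u * ·) volume) :=
    (lintegral_map hm (measurable_const_mul u)).symm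
  rw [h1, Real.map_volume_mul_left hu, lintegral_smul_measure, smul_eq_mul, ← mul_assoc,
    ← ENNReal.ofReal_mul (abs_nonneg u), ← abs_mul, mul_inv_cancel₀ hu, abs_one,
    ENNReal.ofReal_one, one_mul]

lemma lint_abs {f : ℝ → ENNReal} (hf : Measurable f) :
    ∫⁻ t, f |t| = 2 * ∫⁻ t in Ioi (0 : ℝ), f t := by
  have hfa : Measurable fun t : ℝ => f |t| := hf.comp (by fun_prop)
  have h2 : ∫⁻ t in Iic (0 : ℝ), f |t| = ∫⁻ t in Ioi (0 : ℝ), f t := by
    rw [← setLIntegral_congr Iio_ae_eq_Iic, ← lintegral_indicator measurableSet_Iio,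
      ← lintegral_indicator measurableSet_Ioi,
      lint_scale (u := -1) (by norm_num) (hfa.indicator measurableSet_Iio), abs_neg, abs_one,
      ENNReal.ofReal_one, one_mul]
    refine lintegral_congr fun y => ?_
    by_cases hy : 0 < y
    · rw [indicator_of_mem (show (-1 : ℝ) * y ∈ Iio (0 : ℝ) by
        show (-1 : ℝ) * y < 0
        linarith), indicator_of_mem (show y ∈ Ioi (0 : ℝ) from hy)]
      congr 1
      rw [abs_mul, abs_neg, abs_one, one_mul, abs_of_pos hy]
    · rw [indicator_of_notMem (show (-1 : ℝ) * y ∉ Iio (0 : ℝ) by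
        show ¬ (-1 : ℝ) * y < 0
        linarith), indicator_of_notMem (show y ∉ Ioi (0 : ℝ) from hy)]
  have h3 : ∫⁻ t in Ioi (0 : ℝ), f |t| = ∫⁻ t in Ioi (0 : ℝ), f t := by
    refine setLIntegral_congr_fun measurableSet_Ioi fun t ht => ?_
    show f |t| = f t
    rw [abs_of_pos ht]
  rw [← lintegral_add_compl _ (measurableSet_Ioi (a := (0 : ℝ))), compl_Ioi, h2, h3, two_mul]

/-- the scaling of the plane -/
lemma vol_scale {N : Set (ℝ × ℝ)} (hN : MeasurableSet N) {u v : ℝ} (hu : u ≠ 0) (hv : v ≠ 0) :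
    volume {a : ℝ × ℝ | (a.1 / u, a.2 / v) ∈ N} = ENNReal.ofReal |u * v| * volume N := by
  have hm : MeasurableSet {a : ℝ × ℝ | (a.1 / u, a.2 / v) ∈ N} := by
    have : Measurable fun a : ℝ × ℝ => (a.1 / u, a.2 / v) := by fun_prop
    exact this hN
  rw [Measure.volume_eq_prod, Measure.prod_apply hm]
  have h1 : ∀ x : ℝ, volume (Prod.mk x ⁻¹' {a : ℝ × ℝ | (a.1 / u, a.2 / v) ∈ N})
      = ENNReal.ofReal |v| * volume (Prod.mk (u⁻¹ * x) ⁻¹' N) := by
    intro x
    have h2 : Prod.mk x ⁻¹' {a : ℝ × ℝ | (a.1 / u, a.2 / v) ∈ N}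
        = (v⁻¹ * ·) ⁻¹' (Prod.mk (u⁻¹ * x) ⁻¹' N) := by
      ext t
      show (x / u, t / v) ∈ N ↔ (u⁻¹ * x, v⁻¹ * t) ∈ N
      rw [div_eq_inv_mul, div_eq_inv_mul]
    rw [h2, Real.volume_preimage_mul_left (inv_ne_zero hv), inv_inv]
  simp only [h1]
  have hmn : Measurable fun y : ℝ => volume (Prod.mk y ⁻¹' N) := measurable_measure_prodMk_left hN
  have hm2 : Measurable fun x : ℝ => volume (Prod.mk (u⁻¹ * x) ⁻¹' N) :=
    hmn.comp (measurable_const_mul _)
  rw [lintegral_const_mul _ hm2, Measure.prod_apply hN,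
    lint_scale (inv_ne_zero hu) hmn, ← mul_assoc, abs_mul, abs_inv]
  rw [← ENNReal.ofReal_mul (by positivity)]
  have hu' : |u| ≠ 0 := abs_ne_zero.2 hu
  have e : |u| * |v| * |u|⁻¹ = |v| := by
    field_simp
  rw [e]

/-- the weight on the cone -/
noncomputable def Kc (g : ℝ) (b : ℝ × ℝ) : ENNReal :=
  indicator {b : ℝ × ℝ | b.2 ≠ 0 ∧ |b.2| ≤ |b.1| ∧ |b.1| < cc * |b.2| ∧ g * |b.1 * b.2| ^ 3 ≤ 1}
    (fun b => ENNReal.ofReal |b.1 * b.2|) b

lemma meas_K : Measurable fun q : (ℝ × ℝ) × ℝ => Kc q.2 q.1 := by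
  have h1 : (fun q : (ℝ × ℝ) × ℝ => Kc q.2 q.1) = indicator {q : (ℝ × ℝ) × ℝ | q.1.2 ≠ 0 ∧
      |q.1.2| ≤ |q.1.1| ∧ |q.1.1| < cc * |q.1.2| ∧ q.2 * |q.1.1 * q.1.2| ^ 3 ≤ 1}
      (fun q => ENNReal.ofReal |q.1.1 * q.1.2|) := by
    funext q
    unfold Kc
    by_cases h : q.1.2 ≠ 0 ∧ |q.1.2| ≤ |q.1.1| ∧ |q.1.1| < cc * |q.1.2| ∧
      q.2 * |q.1.1 * q.1.2| ^ 3 ≤ 1
    · rw [indicator_of_mem (by exact h), indicator_of_mem (by exact h)]
    · rw [indicator_of_notMem (by exact h), indicator_of_notMem (by exact h)]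
  rw [h1]
  apply Measurable.indicator
  · exact ENNReal.measurable_ofReal.comp (by fun_prop)
  · have m2 : Measurable fun q : (ℝ × ℝ) × ℝ => q.1.2 := by fun_prop
    have e1 : MeasurableSet {q : (ℝ × ℝ) × ℝ | q.1.2 ≠ 0} := (m2 (measurableSet_singleton 0)).compl
    have e2 : MeasurableSet {q : (ℝ × ℝ) × ℝ | |q.1.2| ≤ |q.1.1|} :=
      measurableSet_le (by fun_prop) (by fun_prop)
    have e3 : MeasurableSet {q : (ℝ × ℝ) × ℝ | |q.1.1| < cc * |q.1.2|} :=
      measurableSet_lt (by fun_prop) (by fun_prop)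
    have e4 : MeasurableSet {q : (ℝ × ℝ) × ℝ | q.2 * |q.1.1 * q.1.2| ^ 3 ≤ 1} :=
      measurableSet_le (by fun_prop) (by fun_prop)
    exact e1.inter (e2.inter (e3.inter e4))

lemma meas_K1 (g : ℝ) : Measurable (Kc g) := meas_K.comp (by fun_prop : Measurable fun b => (b, g))

/-- the inner integral -/
lemma lint_cube {A r : ℝ} (hA : 0 < A) (hr : 0 ≤ r) :
    ∫⁻ t in Ioi (0 : ℝ), indicator {t : ℝ | t ^ 2 * A ≤ r} (fun t => ENNReal.ofReal (t ^ 3 * A)) t
      = ENNReal.ofReal (r ^ 2 / (4 * A)) := by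
  set s : ℝ := √(r / A) with hs
  have hs0 : 0 ≤ s := Real.sqrt_nonneg _
  have hs2 : s ^ 2 = r / A := Real.sq_sqrt (by positivity)
  have h1 : ∫⁻ t in Ioi (0 : ℝ), indicator {t : ℝ | t ^ 2 * A ≤ r}
      (fun t => ENNReal.ofReal (t ^ 3 * A)) t = ∫⁻ t in Ioc (0 : ℝ) s, ENNReal.ofReal (t ^ 3 * A) := by
    rw [← lintegral_indicator measurableSet_Ioi, ← lintegral_indicator measurableSet_Ioc]
    refine lintegral_congr fun t => ?_
    by_cases ht : 0 < t
    · rw [indicator_of_mem (show t ∈ Ioi (0 : ℝ) from ht)]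
      by_cases h : t ^ 2 * A ≤ r
      · rw [indicator_of_mem (show t ∈ {t : ℝ | t ^ 2 * A ≤ r} from h), indicator_of_mem]
        refine ⟨ht, ?_⟩
        rw [hs]
        apply Real.le_sqrt_of_sq_le
        rwa [le_div_iff₀ hA]
      · rw [indicator_of_notMem (show t ∉ {t : ℝ | t ^ 2 * A ≤ r} from h), indicator_of_notMem]
        rintro ⟨-, h2⟩
        apply h
        rw [← le_div_iff₀ hA, ← hs2]
        exact pow_le_pow_left₀ ht.le h2 2
    · rw [indicator_of_notMem (show t ∉ Ioi (0 : ℝ) from ht), indicator_of_notMem]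
      rintro ⟨h2, -⟩
      exact ht h2
  rw [h1, ← ofReal_integral_eq_lintegral_ofReal]
  · congr 1
    rw [← intervalIntegral.integral_of_le hs0, intervalIntegral.integral_mul_const, integral_pow]
    have h4 : s ^ 4 = (r / A) ^ 2 := by
      rw [← hs2]
      ring
    norm_num
    rw [h4]
    field_simp
  · have hc : Continuous fun t : ℝ => t ^ 3 * A := by fun_prop
    exact (hc.integrableOn_Icc (a := 0) (b := s)).mono_set Ioc_subset_Icc_self
  · refine (ae_restrict_mem measurableSet_Ioc).mono fun t ht => ?_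
    have := ht.1
    show (0 : ℝ) ≤ t ^ 3 * A
    positivity

/-- the outer integral -/
lemma lint_log {B : ℝ} (hB : 0 ≤ B) :
    ∫⁻ t in Ioi (0 : ℝ), indicator {t : ℝ | 1 ≤ t ∧ t < cc} (fun t => ENNReal.ofReal (B / t)) t
      = ENNReal.ofReal (B * Real.log cc) := by
  have hcc1 : 1 ≤ cc := by
    unfold cc
    have := Real.sqrt_nonneg 5
    linarith
  have h1 : ∫⁻ t in Ioi (0 : ℝ), indicator {t : ℝ | 1 ≤ t ∧ t < cc}
      (fun t => ENNReal.ofReal (B / t)) t = ∫⁻ t in Ico (1 : ℝ) cc, ENNReal.ofReal (B / t) := by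
    rw [← lintegral_indicator measurableSet_Ioi, ← lintegral_indicator measurableSet_Ico]
    refine lintegral_congr fun t => ?_
    by_cases ht : 0 < t
    · rw [indicator_of_mem (show t ∈ Ioi (0 : ℝ) from ht)]
      rfl
    · rw [indicator_of_notMem (show t ∉ Ioi (0 : ℝ) from ht), indicator_of_notMem]
      rintro ⟨h2, -⟩
      apply ht
      linarith
  rw [h1, setLIntegral_congr Ico_ae_eq_Ioc, ← ofReal_integral_eq_lintegral_ofReal]
  · congr 1
    rw [← intervalIntegral.integral_of_le hcc1]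
    have h2 : ∀ t : ℝ, B / t = B * t⁻¹ := fun t => div_eq_mul_inv _ _
    simp only [h2]
    rw [intervalIntegral.integral_const_mul, integral_inv_of_pos one_pos cc_pos, div_one]
  · have hc : ContinuousOn (fun t : ℝ => B / t) (Icc 1 cc) := by
      intro t ht
      apply ContinuousWithinAt.div continuousWithinAt_const continuousWithinAt_id
      have := ht.1
      show t ≠ 0
      linarith
    exact (hc.integrableOn_Icc).mono_set Ioc_subset_Icc_self
  · refine (ae_restrict_mem measurableSet_Ioc).mono fun t ht => ?_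
    have := ht.1
    show (0 : ℝ) ≤ B / t
    have : 0 < t := by linarith
    positivity

/-- the integral over the cone -/
lemma cone_int {g r : ℝ} (hr : 0 < r) (hg : g * r ^ 3 = 1) :
    ∫⁻ b, Kc g b = ENNReal.ofReal (r ^ 2 * Real.log cc) := by
  have hg0 : 0 < g := by
    by_contra h
    push Not at h
    have : 0 < r ^ 3 := by positivity
    nlinarith
  -- the condition
  have hcond : ∀ t : ℝ, 0 ≤ t → (g * t ^ 3 ≤ 1 ↔ t ≤ r) := by
    intro t ht
    rw [← hg, mul_le_mul_iff_right₀ hg0]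
    exact pow_le_pow_iff_left₀ ht hr.le (by norm_num)
  -- the function after the substitution
  set G : ℝ → ℝ → ENNReal := fun b y =>
    indicator {q : ℝ × ℝ | (1 ≤ |q.2| ∧ |q.2| < cc) ∧ q.1 ^ 2 * |q.2| ≤ r}
      (fun q => ENNReal.ofReal (|q.1| ^ 3 * |q.2|)) (b, y) with hG
  have hGm : Measurable (Function.uncurry G) := by
    have : Function.uncurry G = indicator {q : ℝ × ℝ | (1 ≤ |q.2| ∧ |q.2| < cc) ∧
        q.1 ^ 2 * |q.2| ≤ r} (fun q => ENNReal.ofReal (|q.1| ^ 3 * |q.2|)) := by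
      funext q
      rfl
    rw [this]
    apply Measurable.indicator
    · exact ENNReal.measurable_ofReal.comp (by fun_prop)
    · have e1 : MeasurableSet {q : ℝ × ℝ | 1 ≤ |q.2|} := measurableSet_le (by fun_prop) (by fun_prop)
      have e2 : MeasurableSet {q : ℝ × ℝ | |q.2| < cc} := measurableSet_lt (by fun_prop) (by fun_prop)
      have e3 : MeasurableSet {q : ℝ × ℝ | q.1 ^ 2 * |q.2| ≤ r} :=
        measurableSet_le (by fun_prop) (by fun_prop)
      exact (e1.inter e2).inter e3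
  have h1 : ∀ b : ℝ, ∫⁻ x : ℝ, Kc g (x, b) = ∫⁻ y : ℝ, G b y := by
    intro b
    by_cases hb : b = 0
    · have e1 : ∀ x : ℝ, Kc g (x, b) = 0 := by
        intro x
        unfold Kc
        rw [indicator_of_notMem]
        rintro ⟨h, -⟩
        exact h hb
      have e2 : ∀ y : ℝ, G b y = 0 := by
        intro y
        rw [hG]
        show indicator _ _ _ = 0
        apply indicator_apply_eq_zero.2
        intro _
        rw [hb]
        simp
      simp only [e1, e2]
    · have hb' : 0 < |b| := abs_pos.2 hb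
      have hm : Measurable fun x : ℝ => Kc g (x, b) := (meas_K1 g).comp (by fun_prop)
      have hm2 : Measurable fun y : ℝ => Kc g (b * y, b) := hm.comp (measurable_const_mul b)
      rw [lint_scale hb hm, ← lintegral_const_mul _ hm2]
      refine lintegral_congr fun y => ?_
      have e0 : |b * y * b| = b ^ 2 * |y| := by
        rw [abs_mul, abs_mul, ← sq_abs b]
        ring
      have e1 : |b * y * b| ≤ r ↔ g * |b * y * b| ^ 3 ≤ 1 := (hcond _ (abs_nonneg _)).symm
      have e2 : |b| ≤ |b * y| ↔ 1 ≤ |y| := by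
        rw [abs_mul, le_mul_iff_one_le_right hb']
      have e3 : |b * y| < cc * |b| ↔ |y| < cc := by
        rw [abs_mul, mul_comm |b| |y|, mul_lt_mul_iff_left₀ hb']
      show ENNReal.ofReal |b| * Kc g (b * y, b) = G b y
      by_cases hy : (1 ≤ |y| ∧ |y| < cc) ∧ b ^ 2 * |y| ≤ r
      · have f1 : Kc g (b * y, b) = ENNReal.ofReal |b * y * b| := by
          unfold Kc
          rw [indicator_of_mem]
          refine ⟨hb, e2.2 hy.1.1, e3.2 hy.1.2, e1.1 ?_⟩
          rw [e0]
          exact hy.2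
        have f2 : G b y = ENNReal.ofReal (|b| ^ 3 * |y|) := by
          rw [hG]
          exact indicator_of_mem (by exact hy) _
        rw [f1, f2, ← ENNReal.ofReal_mul (abs_nonneg b), e0, ← sq_abs b]
        congr 1
        ring
      · have f1 : Kc g (b * y, b) = 0 := by
          unfold Kc
          rw [indicator_of_notMem]
          rintro ⟨-, g2, g3, g4⟩
          apply hy
          refine ⟨⟨e2.1 g2, e3.1 g3⟩, ?_⟩
          rw [← e0]
          exact e1.2 g4
        have f2 : G b y = 0 := by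
          rw [hG]
          exact indicator_of_notMem (by exact hy) _
        rw [f1, f2, mul_zero]
  have h2 : ∀ y : ℝ, ∫⁻ b : ℝ, G b y =
      indicator {t : ℝ | 1 ≤ t ∧ t < cc} (fun t => ENNReal.ofReal (r ^ 2 / 2 / t)) |y| := by
    intro y
    by_cases hy : 1 ≤ |y| ∧ |y| < cc
    · have hy0 : 0 < |y| := by linarith [hy.1]
      rw [indicator_of_mem (show |y| ∈ {t : ℝ | 1 ≤ t ∧ t < cc} from hy)]
      have e1 : ∀ b : ℝ, G b y = (fun t : ℝ => indicator {t : ℝ | t ^ 2 * |y| ≤ r}
          (fun t => ENNReal.ofReal (t ^ 3 * |y|)) t) |b| := by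
        intro b
        rw [hG]
        by_cases hb : b ^ 2 * |y| ≤ r
        · show indicator _ _ _ = indicator _ _ _
          rw [indicator_of_mem (by exact ⟨hy, hb⟩), indicator_of_mem (by
            show |b| ^ 2 * |y| ≤ r
            rwa [sq_abs])]
        · show indicator _ _ _ = indicator _ _ _
          rw [indicator_of_notMem (by exact fun h => hb h.2), indicator_of_notMem (by
            show ¬ |b| ^ 2 * |y| ≤ r
            rwa [sq_abs])]
      simp only [e1]
      rw [lint_abs, lint_cube hy0 hr.le]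
      · rw [show (2 : ENNReal) = ENNReal.ofReal 2 by simp, ← ENNReal.ofReal_mul (by norm_num)]
        congr 1
        field_simp
        ring
      · apply Measurable.indicator
        · exact ENNReal.measurable_ofReal.comp (by fun_prop)
        · exact measurableSet_le (by fun_prop) (by fun_prop)
    · rw [indicator_of_notMem (show |y| ∉ {t : ℝ | 1 ≤ t ∧ t < cc} from hy)]
      have e1 : ∀ b : ℝ, G b y = 0 := by
        intro b
        rw [hG]
        exact indicator_of_notMem (by exact fun h => hy h.1) _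
      simp only [e1, lintegral_zero]
  rw [Measure.volume_eq_prod, lintegral_prod_symm' _ (meas_K1 g)]
  simp only [h1]
  rw [lintegral_lintegral_swap hGm.aemeasurable]
  simp only [h2]
  rw [lint_abs, lint_log (by positivity)]
  · rw [show (2 : ENNReal) = ENNReal.ofReal 2 by simp, ← ENNReal.ofReal_mul (by norm_num)]
    congr 1
    ring
  · apply Measurable.indicator
    · exact ENNReal.measurable_ofReal.comp (by fun_prop)
    · exact (measurableSet_le measurable_const measurable_id).inter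
        (measurableSet_lt measurable_id measurable_const)

/-- the local factor -/
noncomputable def gg (x : ℝ × ℝ) : ℝ := |x.1 * (x.1 + 1)| * |x.2 * (x.2 + 1)|

lemma gg_meas : Measurable gg := by
  unfold gg
  fun_prop

lemma slice_eq {Q : Set (ℝ × ℝ)} (hQ : MeasurableSet Q) (b : ℝ × ℝ) :
    volume {a : ℝ × ℝ | (a.1, a.2, b.1, b.2) ∈ Reg Q} = ∫⁻ x in Q, Kc (gg x) b := by
  by_cases hb : b.2 ≠ 0 ∧ |b.2| ≤ |b.1| ∧ |b.1| < cc * |b.2|
  · obtain ⟨h1, h2, h3⟩ := hb
    have h0 : b.1 ≠ 0 := abs_pos.1 (lt_of_lt_of_le (abs_pos.2 h1) h2)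
    have hmQ : MeasurableSet {x | x ∈ Q ∧ gg x * |b.1 * b.2| ^ 3 ≤ 1} :=
      hQ.inter (measurableSet_le (gg_meas.mul measurable_const) measurable_const)
    have e1 : {a : ℝ × ℝ | (a.1, a.2, b.1, b.2) ∈ Reg Q} =
        {a : ℝ × ℝ | (a.1 / b.1, a.2 / b.2) ∈ {x | x ∈ Q ∧ gg x * |b.1 * b.2| ^ 3 ≤ 1}} := by
      ext a
      have e2 : gg (a.1 / b.1, a.2 / b.2) * |b.1 * b.2| ^ 3 =
          |a.1 * b.1 * (a.1 + b.1)| * |a.2 * b.2 * (a.2 + b.2)| := by
        unfold gg
        show |a.1 / b.1 * (a.1 / b.1 + 1)| * |a.2 / b.2 * (a.2 / b.2 + 1)| * |b.1 * b.2| ^ 3 = _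
        rw [← abs_mul, ← abs_pow, ← abs_mul, ← abs_mul]
        congr 1
        field_simp
      constructor
      · rintro ⟨-, -, -, g4, g5⟩
        refine ⟨g4, ?_⟩
        rw [e2]
        exact g5
      · rintro ⟨g4, g5⟩
        rw [e2] at g5
        exact ⟨h1, h2, h3, g4, g5⟩
    rw [e1, vol_scale hmQ h0 h1]
    have e3 : ∫⁻ x in Q, Kc (gg x) b = ∫⁻ x, indicator {x | x ∈ Q ∧ gg x * |b.1 * b.2| ^ 3 ≤ 1}
        (fun _ => ENNReal.ofReal |b.1 * b.2|) x := by
      rw [← lintegral_indicator hQ]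
      refine lintegral_congr fun x => ?_
      by_cases hx : x ∈ Q
      · rw [indicator_of_mem hx]
        unfold Kc
        by_cases h : gg x * |b.1 * b.2| ^ 3 ≤ 1
        · rw [indicator_of_mem (by exact ⟨h1, h2, h3, h⟩), indicator_of_mem (by exact ⟨hx, h⟩)]
        · rw [indicator_of_notMem (by exact fun h' => h h'.2.2.2),
            indicator_of_notMem (by exact fun h' => h h'.2)]
      · rw [indicator_of_notMem hx, indicator_of_notMem (by exact fun h' => hx h'.1)]
    rw [e3, lintegral_indicator hmQ, setLIntegral_const]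
  · have e1 : {a : ℝ × ℝ | (a.1, a.2, b.1, b.2) ∈ Reg Q} = ∅ := by
      rw [Set.eq_empty_iff_forall_notMem]
      rintro a ⟨g1, g2, g3, -, -⟩
      exact hb ⟨g1, g2, g3⟩
    have e2 : ∀ x : ℝ × ℝ, Kc (gg x) b = 0 := by
      intro x
      unfold Kc
      exact indicator_of_notMem (by exact fun h => hb ⟨h.1, h.2.1, h.2.2.1⟩) _
    rw [e1, measure_empty]
    simp only [e2, lintegral_zero]

lemma gg_pos {R : ℝ} (hR : 1 ≤ R) {x : ℝ × ℝ} (hx : x ∈ KK R ×ˢ KK R) : 0 < gg x := by
  obtain ⟨⟨x1, x2, -⟩, y1, y2, -⟩ := hx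
  have h0 : 0 < 1 / R := by positivity
  unfold gg
  rw [abs_mul, abs_mul]
  have := h0.trans x1
  have := h0.trans x2
  have := h0.trans y1
  have := h0.trans y2
  positivity

lemma log_cc : Real.log cc = 2 * Real.log ((1 + √5) / 2) := by
  have h5 : √5 ^ 2 = (5 : ℝ) := Real.sq_sqrt (by norm_num)
  have : cc = ((1 + √5) / 2) ^ 2 := by
    unfold cc
    linear_combination (-1 / 4 : ℝ) * h5
  rw [this, Real.log_pow]
  norm_num

/-- VOL -/
theorem vol : S_VOL := by
  intro R Q hR hQ hsub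
  have h1 : volume (Reg Q) = ∫⁻ x in Q, ENNReal.ofReal (2 * Real.log ((1 + √5) / 2) *
      (dens x.1 * dens x.2)) := by
    rw [vol_slice (Reg_meas hQ)]
    simp only [slice_eq hQ]
    rw [lintegral_lintegral_swap]
    · refine setLIntegral_congr_fun hQ fun x hx => ?_
      have hg := gg_pos hR (hsub hx)
      have hr : 0 < gg x ^ (-(1 : ℝ) / 3) := Real.rpow_pos_of_pos hg _
      have hg3 : gg x * (gg x ^ (-(1 : ℝ) / 3)) ^ 3 = 1 := by
        rw [← Real.rpow_natCast (gg x ^ (-(1 : ℝ) / 3)) 3, ← Real.rpow_mul hg.le]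
        norm_num
        rw [Real.rpow_neg_one]
        exact mul_inv_cancel₀ hg.ne'
      show ∫⁻ b, Kc (gg x) b = _
      rw [cone_int hr hg3, log_cc]
      congr 1
      have h2 : (gg x ^ (-(1 : ℝ) / 3)) ^ 2 = dens x.1 * dens x.2 := by
        rw [← Real.rpow_natCast (gg x ^ (-(1 : ℝ) / 3)) 2, ← Real.rpow_mul hg.le]
        unfold dens gg
        rw [Real.mul_rpow (abs_nonneg _) (abs_nonneg _)]
        norm_num
      rw [h2]
      ring
    · have : Measurable fun q : (ℝ × ℝ) × (ℝ × ℝ) => Kc (gg q.2) q.1 :=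
        meas_K.comp (measurable_fst.prodMk (gg_meas.comp measurable_snd))
      exact this.aemeasurable
  have hdm : Measurable dens := by
    unfold dens
    fun_prop
  rw [h1, ← integral_eq_lintegral_of_nonneg_ae, integral_const_mul]
  · refine Eventually.of_forall fun x => ?_
    have hl : 0 ≤ Real.log ((1 + √5) / 2) := by
      apply Real.log_nonneg
      have : (1 : ℝ) ≤ √5 := by
        rw [Real.one_le_sqrt]
        norm_num
      linarith
    have hd : ∀ y : ℝ, 0 ≤ dens y := fun y => Real.rpow_nonneg (abs_nonneg _) _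
    have := hd x.1
    have := hd x.2
    show 0 ≤ 2 * Real.log ((1 + √5) / 2) * (dens x.1 * dens x.2)
    positivity
  · have : Measurable fun x : ℝ × ℝ => 2 * Real.log ((1 + √5) / 2) * (dens x.1 * dens x.2) := by
      have h2 : Measurable fun x : ℝ × ℝ => dens x.1 := hdm.comp measurable_fst
      have h3 : Measurable fun x : ℝ × ℝ => dens x.2 := hdm.comp measurable_snd
      exact (h2.mul h3).const_mul _
    exact this.aestronglyMeasurable

end Pool.Agent.P8H75.JG
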